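import Mathlib
import Pool.Agent.W666.DM.Merit

/-!
# Frobenius at a prime `p` when the `p`-th roots of unity are in the field
-/

set_option autoImplicit false

open Finset Polynomial Module IntermediateField

namespace Pool.Agent.W666.DN

open Pool.Agent.H388SL Pool.Agent.W666.DL Pool.Agent.W666.DM

variable {K : Type*} [Field K] [NumberField K]

/-- the minimal polynomial as a product over the Galois group of a normal subfield -/
lemma minpoly_eq_prod {E : IntermediateField ℚ K} [IsGalois ℚ E] {g : K} (hE : E ≤ ℚ⟮g⟯) :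
    (minpoly ℚ g).map (algebraMap ℚ E) =
      ∏ s : E ≃ₐ[ℚ] E, (minpoly E g).map (s : E →+* E) := by
  classical
  set q := minpoly E g with hq
  have hqm : q.Monic := minpoly.monic (isInt E g)
  set P : E[X] := ∏ s : E ≃ₐ[ℚ] E, q.map (s : E →+* E) with hP
  have hPm : P.Monic := monic_prod_of_monic _ _ fun s _ => hqm.map _
  have hfix : ∀ t : E ≃ₐ[ℚ] E, P.map (t : E →+* E) = P := by
    intro t
    rw [hP, Polynomial.map_prod]
    refine Fintype.prod_equiv (Equiv.mulLeft t) _ _ fun s => ?_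
    rw [Polynomial.map_map]
    rfl
  have hlift : P ∈ Polynomial.lifts (algebraMap ℚ E) := by
    rw [Polynomial.lifts_iff_coeff_lifts]
    intro n
    rw [IsGalois.mem_range_algebraMap_iff_fixed]
    intro t
    have h := congrArg (fun F => F.coeff n) (hfix t)
    simp only [coeff_map] at h
    exact h
  obtain ⟨P0, hP0, hdeg0, hmon0⟩ := Polynomial.lifts_and_natDegree_eq_and_monic hlift hPm
  have hroot : aeval g P0 = 0 := by
    rw [← Polynomial.aeval_map_algebraMap E g P0, hP0, hP, map_prod]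
    apply Finset.prod_eq_zero (Finset.mem_univ (1 : E ≃ₐ[ℚ] E))
    have : q.map ((1 : E ≃ₐ[ℚ] E) : E →+* E) = q := by
      change q.map (RingHom.id E) = q
      exact Polynomial.map_id
    rw [this]
    exact minpoly.aeval E g
  have hdegP : P.natDegree = finrank ℚ E * q.natDegree := by
    rw [hP, natDegree_prod_of_monic _ _ fun s _ => hqm.map _]
    refine (Finset.sum_congr rfl fun s _ => hqm.natDegree_map _).trans ?_
    rw [Finset.sum_const, Finset.card_univ, ← Nat.card_eq_fintype_card,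
      IsGalois.card_aut_eq_finrank, smul_eq_mul]
  have h1 := rr_mul E g hE
  have h2 := finrank_mul_finrank ℚ E K
  have h3 := rr_mul_natDegree g
  have h4 : (minpoly ℚ g).natDegree = P0.natDegree := by
    rw [hdeg0, hdegP]
    apply Nat.eq_of_mul_eq_mul_left (rr_pos g)
    rw [h3, ← h2, ← h1]
    ring
  have h5 : P0 = minpoly ℚ g :=
    Polynomial.eq_of_monic_of_dvd_of_natDegree_le
      (minpoly.monic (Algebra.IsIntegral.isIntegral g)) hmon0 (minpoly.dvd ℚ g hroot) h4.ge
  rw [← h5, hP0]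

/-- elements of `ℤ[ζ]` and their conjugates are congruent to one integer modulo `1 - ζ` -/
lemma exists_int {p : ℕ} (hp : 0 < p) {ζ : K} (hζ : IsPrimitiveRoot ζ p) (E : IntermediateField ℚ K)
    (ζE : E) (hE : (ζE : K) = ζ) (x : E) (hx : x ∈ Algebra.adjoin ℤ {ζE}) :
    ∃ n : ℤ, ∀ s : E ≃ₐ[ℚ] E, ∃ v : K, IsIntegral ℤ v ∧ ((s x : E) : K) = n + (1 - ζ) * v := by
  have hζi : IsIntegral ℤ ζ := hζ.isIntegral hp
  induction hx using Algebra.adjoin_induction with
  | mem x hx =>
    rw [Set.mem_singleton_iff] at hx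
    subst hx
    refine ⟨1, fun s => ?_⟩
    have h1 : ((s x : E) : K) ^ p = 1 := by
      have h2 : (x : E) ^ p = 1 := by
        apply Subtype.ext
        push_cast
        rw [hE, hζ.pow_eq_one]
      have h3 := congrArg (fun y => ((s y : E) : K)) h2
      simp only [map_pow, map_one] at h3
      push_cast at h3
      exact h3
    have : NeZero p := ⟨hp.ne'⟩
    obtain ⟨i, _, hi⟩ := hζ.eq_pow_of_pow_eq_one h1
    refine ⟨-(∑ j ∈ range i, ζ ^ j), ?_, ?_⟩
    · exact (IsIntegral.sum _ fun j _ => hζi.pow j).neg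
    · rw [← hi]
      have h4 := mul_neg_geom_sum ζ i
      push_cast
      linear_combination h4
  | algebraMap r =>
    refine ⟨r, fun s => ⟨0, isIntegral_zero, ?_⟩⟩
    have : s (algebraMap ℤ E r) = algebraMap ℤ E r := by simp
    rw [this]
    simp
  | add x y _ _ hx hy =>
    obtain ⟨n, hn⟩ := hx
    obtain ⟨m, hm⟩ := hy
    refine ⟨n + m, fun s => ?_⟩
    obtain ⟨v, hv, h1⟩ := hn s
    obtain ⟨w, hw, h2⟩ := hm s
    refine ⟨v + w, hv.add hw, ?_⟩
    rw [map_add]
    push_cast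
    rw [h1, h2]
    ring
  | mul x y _ _ hx hy =>
    obtain ⟨n, hn⟩ := hx
    obtain ⟨m, hm⟩ := hy
    refine ⟨n * m, fun s => ?_⟩
    obtain ⟨v, hv, h1⟩ := hn s
    obtain ⟨w, hw, h2⟩ := hm s
    refine ⟨n * w + m * v + (1 - ζ) * (v * w), ?_, ?_⟩
    · exact (((isIntegral_algebraMap (R := ℤ) (A := K) (x := n)).mul hw).add
        ((isIntegral_algebraMap (R := ℤ) (A := K) (x := m)).mul hv)).add
        ((isIntegral_one.sub hζi).mul (hv.mul hw))
    · rw [map_mul]
      push_cast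
      rw [h1, h2]
      ring

/-- the conjugate polynomials are congruent to one integer polynomial modulo `1 - ζ` -/
lemma exists_poly {p : ℕ} (hp : 0 < p) {ζ : K} (hζ : IsPrimitiveRoot ζ p) (E : IntermediateField ℚ K)
    (ζE : E) (hE : (ζE : K) = ζ) (q : E[X]) (hq : ∀ n, q.coeff n ∈ Algebra.adjoin ℤ {ζE}) :
    ∃ N : ℤ[X], ∀ (s : E ≃ₐ[ℚ] E) (y : K), IsIntegral ℤ y →
      ∃ v : K, IsIntegral ℤ v ∧ aeval y (q.map (s : E →+* E)) = aeval y N + (1 - ζ) * v := by
  choose n hn using fun i => exists_int hp hζ E ζE hE (q.coeff i) (hq i)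
  refine ⟨∑ i ∈ range (q.natDegree + 1), C (n i) * X ^ i, fun s y hy => ?_⟩
  choose v hv h1 using fun i => hn i s
  refine ⟨∑ i ∈ range (q.natDegree + 1), v i * y ^ i,
    IsIntegral.sum _ fun i _ => (hv i).mul (hy.pow i), ?_⟩
  have h2 : aeval y (q.map (s : E →+* E)) =
      ∑ i ∈ range (q.natDegree + 1), ((s (q.coeff i) : E) : K) * y ^ i := by
    rw [Polynomial.aeval_def, Polynomial.eval₂_eq_sum_range' _ (n := q.natDegree + 1)]
    · refine Finset.sum_congr rfl fun i _ => ?_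
      rw [coeff_map]
      rfl
    · exact Nat.lt_succ_of_le (natDegree_map_le)
  rw [h2, map_sum, Finset.mul_sum, ← Finset.sum_add_distrib]
  refine Finset.sum_congr rfl fun i _ => ?_
  rw [h1 i, map_mul, map_pow, aeval_X, aeval_C]
  simp only [algebraMap_int_eq, eq_intCast]
  ring

/-- divisibility in the ring of all algebraic integers of `K` -/
lemma dvd_eval {p : ℕ} (hp : p.Prime) {ζ g : K} (hζ : IsPrimitiveRoot ζ p) (hg : IsIntegral ℤ g)
    (N : ℤ[X]) (h1 : ∃ v : K, IsIntegral ℤ v ∧ aeval g N = (1 - ζ) * v) (b : ℕ) :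
    ∃ v : K, IsIntegral ℤ v ∧ aeval (ζ ^ b * g ^ p) N = (1 - ζ) * v := by
  have : Fact p.Prime := ⟨hp⟩
  have hζi : IsIntegral ℤ ζ := hζ.isIntegral hp.pos
  set R := integralClosure ℤ K with hR
  set ζR : R := ⟨ζ, hζi⟩ with hζR
  set gR : R := ⟨g, hg⟩ with hgR
  have hco : ∀ (x : R) (F : ℤ[X]), ((aeval x F : R) : K) = aeval (x : K) F := by
    intro x F
    exact (Polynomial.aeval_algHom_apply (R.val) x F).symm
  obtain ⟨v, hv, hv1⟩ := h1
  have d1 : (1 - ζR) ∣ aeval gR N := by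
    refine ⟨⟨v, hv⟩, Subtype.ext ?_⟩
    rw [hco]
    push_cast
    exact hv1
  -- `1 - ζ` divides `p`
  have d2 : (1 - ζR) ∣ (p : R) := by
    obtain ⟨n, rfl⟩ : ∃ n, p = n + 1 + 1 := ⟨p - 2, by have := hp.two_le; omega⟩
    have hζR' : IsPrimitiveRoot ζR (n + 1 + 1) := by
      apply IsPrimitiveRoot.of_map_of_injective (f := R.val) (h := ?_) (hf := Subtype.val_injective)
      exact hζ
    have h2 := hζR'.prod_one_sub_pow_eq_order
    have h3 : (1 - ζR ^ (0 + 1)) ∣ ∏ k ∈ range (n + 1), (1 - ζR ^ (k + 1)) :=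
      Finset.dvd_prod_of_mem (fun k => 1 - ζR ^ (k + 1)) (Finset.mem_range.mpr (Nat.succ_pos n))
    rw [h2] at h3
    rw [zero_add, pow_one] at h3
    exact_mod_cast h3
  -- Frobenius
  have d3 : (1 - ζR) ∣ aeval (gR ^ p) N := by
    obtain ⟨w, hw⟩ := expand_eq p N
    have h2 : aeval (gR ^ p) N = (aeval gR N) ^ p + (p : R) * aeval gR w := by
      rw [← Polynomial.expand_aeval, hw, map_add, map_mul, map_pow, aeval_C]
      simp
    rw [h2]
    exact dvd_add (dvd_pow d1 hp.ne_zero) (d2.mul_right _)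
  have d4 : (1 - ζR) ∣ aeval (ζR ^ b * gR ^ p) N := by
    have h2 : ζR ^ b * gR ^ p - gR ^ p ∣ aeval (ζR ^ b * gR ^ p) N - aeval (gR ^ p) N := by
      have h3 := Polynomial.sub_dvd_eval_sub (ζR ^ b * gR ^ p) (gR ^ p) (N.map (algebraMap ℤ R))
      rwa [Polynomial.eval_map_algebraMap, Polynomial.eval_map_algebraMap] at h3
    have h4 : (1 - ζR) ∣ ζR ^ b * gR ^ p - gR ^ p := by
      refine ⟨-(∑ i ∈ range b, ζR ^ i) * gR ^ p, ?_⟩
      have := mul_neg_geom_sum ζR b
      linear_combination gR ^ p * this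
    have h5 := (h4.trans h2).add d3
    rwa [sub_add_cancel] at h5
  obtain ⟨w, hw⟩ := d4
  refine ⟨w, w.2, ?_⟩
  have h6 := congrArg (fun x : R => (x : K)) hw
  simp only [hco] at h6
  push_cast at h6
  exact h6

/-- the value of the minimal polynomial is divisible by `(1 - ζ) ^ (p - 1)` -/
theorem dvd_minpoly {p : ℕ} (hp : p.Prime) {ζ g : K} (hζ : IsPrimitiveRoot ζ p) (hg : IsIntegral ℤ g)
    (hζg : ζ ∈ ℚ⟮g⟯) (b : ℕ) :
    ∃ w : K, IsIntegral ℤ w ∧
      aeval (ζ ^ b * g ^ p) (minpoly ℤ g) = (1 - ζ) ^ (p - 1) * w := by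
  classical
  have : Fact p.Prime := ⟨hp⟩
  have : NeZero p := ⟨hp.ne_zero⟩
  have hζi : IsIntegral ℤ ζ := hζ.isIntegral hp.pos
  set E : IntermediateField ℚ K := ℚ⟮ζ⟯ with hE
  set ζE : E := AdjoinSimple.gen ℚ ζ with hζE
  have hζEK : (ζE : K) = ζ := AdjoinSimple.algebraMap_gen ℚ ζ
  have hζE' : IsPrimitiveRoot ζE p := by
    apply IsPrimitiveRoot.of_map_of_injective (f := E.val) (h := ?_) (hf := Subtype.val_injective)
    exact hζ
  have : IsCyclotomicExtension {p} ℚ E := hζ.intermediateField_adjoin_isCyclotomicExtension ℚ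
  have : IsGalois ℚ E := IsCyclotomicExtension.isGalois {p} ℚ E
  have hcl := IsCyclotomicExtension.Rat.isIntegralClosure_adjoin_singleton_of_prime hζE'
  have hfin : finrank ℚ E = p - 1 := by
    rw [IsCyclotomicExtension.Rat.finrank p E, Nat.totient_prime hp]
  have hEg : E ≤ ℚ⟮g⟯ := by rw [hE, adjoin_simple_le_iff]; exact hζg
  have hprod := minpoly_eq_prod (E := E) hEg
  set q := minpoly E g with hq
  -- the coefficients
  have hgE : IsIntegral (NumberField.RingOfIntegers E) g := hg.tower_top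
  have hqcoef : ∀ n, q.coeff n ∈ Algebra.adjoin ℤ {ζE} := by
    intro n
    have h1 : q = (minpoly (NumberField.RingOfIntegers E) g).map
        (algebraMap (NumberField.RingOfIntegers E) E) :=
      minpoly.isIntegrallyClosed_eq_field_fractions' E hgE
    rw [h1, coeff_map]
    have h2 : IsIntegral ℤ (algebraMap (NumberField.RingOfIntegers E) E
        ((minpoly (NumberField.RingOfIntegers E) g).coeff n)) :=
      NumberField.RingOfIntegers.isIntegral_coe _
    obtain ⟨y, hy⟩ := hcl.isIntegral_iff.mp h2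
    rw [← hy]
    exact y.2
  obtain ⟨N, hN⟩ := exists_poly hp.pos hζ E ζE hζEK q hqcoef
  have hgN : ∃ v : K, IsIntegral ℤ v ∧ aeval g N = (1 - ζ) * v := by
    obtain ⟨v, hv, h1⟩ := hN 1 g hg
    refine ⟨-v, hv.neg, ?_⟩
    have h2 : q.map ((1 : E ≃ₐ[ℚ] E) : E →+* E) = q := by
      change q.map (RingHom.id E) = q
      exact Polynomial.map_id
    rw [h2, hq, minpoly.aeval] at h1
    linear_combination -h1
  obtain ⟨v0, hv0, hyN⟩ := dvd_eval hp hζ hg N hgN b
  set y : K := ζ ^ b * g ^ p with hy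
  have hyi : IsIntegral ℤ y := (hζi.pow b).mul (hg.pow p)
  have hfac : ∀ s : E ≃ₐ[ℚ] E, ∃ w : K, IsIntegral ℤ w ∧
      aeval y (q.map (s : E →+* E)) = (1 - ζ) * w := by
    intro s
    obtain ⟨v, hv, h1⟩ := hN s y hyi
    exact ⟨v0 + v, hv0.add hv, by rw [h1, hyN]; ring⟩
  choose w hw hw1 using hfac
  refine ⟨∏ s : E ≃ₐ[ℚ] E, w s, IsIntegral.prod _ fun s _ => hw s, ?_⟩
  have h1 : aeval y (minpoly ℤ g) = aeval y ((minpoly ℚ g).map (algebraMap ℚ E)) := by
    rw [Polynomial.aeval_map_algebraMap, minpoly.isIntegrallyClosed_eq_field_fractions' ℚ hg,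
      Polynomial.aeval_map_algebraMap]
  rw [h1, hprod, map_prod, Finset.prod_congr rfl fun s _ => hw1 s, Finset.prod_mul_distrib,
    Finset.prod_const, Finset.card_univ, ← Nat.card_eq_fintype_card,
    IsGalois.card_aut_eq_finrank, hfin]

end Pool.Agent.W666.DN
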