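import Mathlib
import Pool.Agent.W666.DN.Cyc
import Pool.Agent.W666.DM.Fam

/-!
# The Frobenius gain at a prime whose roots of unity are in the field
-/

set_option autoImplicit false

open Finset Polynomial Module IntermediateField

namespace Pool.Agent.W666.DN

open Pool.Agent.H388SL Pool.Agent.W666.DL Pool.Agent.W666.DM

variable {K : Type*} [Field K] [NumberField K]

lemma NL_prod {ι : Type*} (s : Finset ι) (f : ι → K) (hf : ∀ i ∈ s, f i ≠ 0) :
    NL (∏ i ∈ s, f i) = ∑ i ∈ s, NL (f i) := by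
  classical
  induction s using Finset.induction_on with
  | empty =>
    rw [Finset.prod_empty, Finset.sum_empty]
    have := NL_natCast (K := K) 1
    rw [Nat.cast_one] at this
    rw [this]; simp
  | insert a s ha ih =>
    rw [Finset.prod_insert ha, Finset.sum_insert ha, NL_mul (hf a (Finset.mem_insert_self _ _)),
      ih fun i hi => hf i (Finset.mem_insert_of_mem hi)]
    exact Finset.prod_ne_zero_iff.mpr fun i hi => hf i (Finset.mem_insert_of_mem hi)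

lemma NL_one_sub {p : ℕ} (hp : p.Prime) {ζ : K} (hζ : IsPrimitiveRoot ζ p) :
    finrank ℚ K * Real.log p ≤ ((p - 1 : ℕ) : ℝ) * NL (1 - ζ) := by
  have hζi : IsIntegral ℤ ζ := hζ.isIntegral hp.pos
  obtain ⟨n, rfl⟩ : ∃ n, p = n + 1 + 1 := ⟨p - 2, by have := hp.two_le; omega⟩
  have hprim : ∀ k ∈ range (n + 1), IsPrimitiveRoot (ζ ^ (k + 1)) (n + 1 + 1) := by
    intro k hk
    rw [Finset.mem_range] at hk
    apply hζ.pow_of_coprime
    apply Nat.Coprime.symm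
    rw [Nat.Prime.coprime_iff_not_dvd hp]
    intro h
    have := Nat.le_of_dvd (Nat.succ_pos k) h
    omega
  have hne : ∀ k ∈ range (n + 1), (1 - ζ ^ (k + 1)) ≠ 0 := by
    intro k hk h
    exact (hprim k hk).ne_one hp.one_lt (sub_eq_zero.mp h).symm
  have h1 := congrArg NL (hζ.prod_one_sub_pow_eq_order)
  have h1' : ((n + 1 : ℕ) : K) + 1 = ((n + 1 + 1 : ℕ) : K) := by push_cast; ring
  rw [h1', NL_natCast, NL_prod _ _ hne] at h1
  rw [← h1]
  have h2 : ∀ k ∈ range (n + 1), NL (1 - ζ ^ (k + 1)) ≤ NL (1 - ζ) := by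
    intro k hk
    have : NeZero (n + 1 + 1) := ⟨by omega⟩
    obtain ⟨i, _, hi⟩ := (hprim k hk).eq_pow_of_pow_eq_one hζ.pow_eq_one
    have h3 := mul_neg_geom_sum (ζ ^ (k + 1)) i
    rw [hi] at h3
    have h4 : (1 - ζ) ≠ 0 := by
      intro h
      exact hζ.ne_one hp.one_lt (sub_eq_zero.mp h).symm
    have h5 : ∑ j ∈ range i, (ζ ^ (k + 1)) ^ j ≠ 0 := by
      intro h
      rw [h, mul_zero] at h3
      exact h4 h3.symm
    rw [← h3, NL_mul (hne k hk) h5]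
    have h6 := NL_nonneg (IsIntegral.sum _ fun j _ => (hζi.pow (k + 1)).pow j) h5
    linarith
  have h3 := Finset.sum_le_card_nsmul _ _ _ h2
  rw [Finset.card_range, nsmul_eq_mul] at h3
  exact h3

lemma aeval_ne {β γ : K} (hγ : IsIntegral ℤ γ) (hne : ∀ σ τ : K →ₐ[ℚ] ℂ, σ β ≠ τ γ) :
    aeval β (minpoly ℤ γ) ≠ 0 := by
  intro h0
  obtain ⟨σ⟩ : Nonempty (K →ₐ[ℚ] ℂ) := ⟨IsAlgClosed.lift⟩
  have h1 : aeval (σ β) (minpoly ℤ γ) = 0 := by rw [← map_aevalZ, h0, map_zero]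
  have h2 := aeval_minpolyZ_eq (gen_int hγ) (CInj_gen γ) (σ β)
  rw [minpolyZ_gen, h1] at h2
  obtain ⟨τ, _, hτ⟩ := Finset.prod_eq_zero_iff.mp h2.symm
  obtain ⟨ρ, hρ⟩ : ∃ ρ : K →ₐ[ℚ] ℂ, ρ γ = τ (AdjoinSimple.gen ℚ γ) := by
    let _ : Algebra (adjoin ℚ {γ}) ℂ := τ.toRingHom.toAlgebra
    have : IsScalarTower ℚ (adjoin ℚ {γ}) ℂ := IsScalarTower.of_algebraMap_eq fun x => (τ.commutes x).symm
    let σ' : K →ₐ[adjoin ℚ {γ}] ℂ := IsAlgClosed.lift
    refine ⟨σ'.restrictScalars ℚ, ?_⟩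
    have h2 := σ'.commutes (AdjoinSimple.gen ℚ γ)
    rw [gen_map] at h2
    exact h2
  exact hne σ ρ ((sub_eq_zero.mp hτ).trans hρ.symm)

lemma II_eq {β γ : K} (hγ : IsIntegral ℤ γ) (hne : ∀ σ τ : K →ₐ[ℚ] ℂ, σ β ≠ τ γ) :
    II β γ = rr γ * NL (aeval β (minpoly ℤ γ)) := by
  rw [II, NL, Finset.mul_sum]
  refine Finset.sum_congr rfl fun σ _ => ?_
  rw [sum_log_sub hγ (σ β) (hne σ), map_aevalZ]

lemma sum_mu_range {p : ℕ} (hp : 0 < p) {ξ : ℂ} (hξ : IsPrimitiveRoot ξ p) (F : ℂ → ℝ) :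
    ∑ x ∈ mu p, F x = ∑ b ∈ range p, F (ξ ^ b) := by
  symm
  refine Finset.sum_bij (fun b _ => ξ ^ b) ?_ ?_ ?_ ?_
  · intro b _
    rw [mem_mu hp, ← pow_mul, mul_comm, pow_mul, hξ.pow_eq_one, one_pow]
  · intro a ha b hb h
    exact hξ.pow_inj (Finset.mem_range.mp ha) (Finset.mem_range.mp hb) h
  · intro x hx
    have : NeZero p := ⟨hp.ne'⟩
    obtain ⟨i, hi, h⟩ := hξ.eq_pow_of_pow_eq_one ((mem_mu hp).mp hx)
    exact ⟨i, Finset.mem_range.mpr hi, h⟩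
  · intro b _
    rfl

/-- the Frobenius gain, second level -/
theorem cross_cyc {g : K} (hg : IsIntegral ℤ g) (h0 : g ≠ 0) (hroot : ∀ n : ℕ, 0 < n → g ^ n ≠ 1)
    {p : ℕ} (hp : p.Prime) {ζ : K} (hζ : IsPrimitiveRoot ζ p) (hζg : ζ ∈ ℚ⟮g⟯) :
    rr g * (p * (finrank ℚ K * Real.log p)) ≤ II (g ^ (p * p)) (g ^ p) := by
  have hζi : IsIntegral ℤ ζ := hζ.isIntegral hp.pos
  have hpp : p * p ≠ p := by
    have := hp.two_le
    intro h
    nlinarith
  have hne : ∀ (b : ℕ) (σ τ : K →ₐ[ℚ] ℂ), σ (ζ ^ b * g ^ p) ≠ τ g := by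
    intro b σ τ h
    have h1 := congrArg (fun x => x ^ p) h
    simp only [← map_pow] at h1
    have h2 : (ζ ^ b * g ^ p) ^ p = g ^ (p * p) := by
      rw [mul_pow, ← pow_mul, mul_comm b p, pow_mul, hζ.pow_eq_one, one_pow, one_mul, ← pow_mul]
    rw [h2] at h1
    exact conj_ne' hg h0 hroot hpp σ τ h1
  have hb : ∀ b : ℕ, rr g * (finrank ℚ K * Real.log p) ≤ II (ζ ^ b * g ^ p) g := by
    intro b
    rw [II_eq hg (hne b)]
    apply mul_le_mul_of_nonneg_left _ (Nat.cast_nonneg _)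
    obtain ⟨w, hw, h1⟩ := dvd_minpoly hp hζ hg hζg b
    have h2 := aeval_ne hg (hne b)
    rw [h1] at h2 ⊢
    have hw0 : w ≠ 0 := right_ne_zero_of_mul h2
    rw [NL_mul (left_ne_zero_of_mul h2) hw0, NL_pow]
    have h3 := NL_nonneg hw hw0
    have h4 := NL_one_sub hp hζ
    linarith
  have hsum : II (g ^ (p * p)) (g ^ p) = ∑ b ∈ range p, II (ζ ^ b * g ^ p) g := by
    unfold II
    rw [Finset.sum_comm' (t' := Finset.univ) (s' := fun _ => range p) (by simp)]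
    refine Finset.sum_congr rfl fun σ _ => ?_
    rw [Finset.sum_comm]
    refine Finset.sum_congr rfl fun τ _ => ?_
    have hσ : IsPrimitiveRoot (σ ζ) p := hζ.map_of_injective σ.injective
    have h1 : (τ g) ^ p ≠ (σ (g ^ p)) ^ p := by
      intro h
      rw [← map_pow, ← map_pow, ← pow_mul] at h
      exact conj_ne' hg h0 hroot hpp σ τ h.symm
    have h2 := sum_log_mu hp.pos (τ g) (σ (g ^ p)) h1
    rw [sum_mu_range hp.pos hσ] at h2
    rw [pow_mul, map_pow σ (g ^ p) p, map_pow τ, norm_sub_rev, ← h2]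
    refine Finset.sum_congr rfl fun b _ => ?_
    rw [map_mul, map_pow σ ζ, norm_sub_rev]
  rw [hsum]
  calc (rr g : ℝ) * (p * (finrank ℚ K * Real.log p))
      = ∑ b ∈ range p, (rr g : ℝ) * (finrank ℚ K * Real.log p) := by
        rw [Finset.sum_const, Finset.card_range, nsmul_eq_mul]; ring
    _ ≤ _ := Finset.sum_le_sum fun b _ => hb b

end Pool.Agent.W666.DN
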