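import Mathlib
import Pool.Agent.W666.DN.Cross

/-!
# A good exponent for every prime
-/

set_option autoImplicit false

open Finset Polynomial Module IntermediateField

namespace Pool.Agent.W666.DN

open Pool.Agent.H388SL Pool.Agent.W666.DL Pool.Agent.W666.DM

variable {K : Type*} [Field K] [NumberField K]

lemma rr_pow_le (g : K) {p : ℕ} (hp : 0 < p) : rr (g ^ p) ≤ p * rr g := by
  have h1 := rr_pow g p
  have h2 := natDegree_le_of_root ℚ⟮g ^ p⟯ g hp (AdjoinSimple.gen ℚ (g ^ p))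
    (AdjoinSimple.algebraMap_gen ℚ (g ^ p)).symm
  rw [← h1, mul_comm p]
  exact Nat.mul_le_mul_left _ h2

/-- a degree drop that is neither trivial nor full comes from a root of unity in the field -/
lemma exists_zeta {g : K} (hg : g ≠ 0) {p : ℕ} (hp : p.Prime)
    (h1 : rr (g ^ p) ≠ p * rr g) (h2 : rr (g ^ p) ≠ rr g) :
    ∃ ζ : K, IsPrimitiveRoot ζ p ∧ ζ ∈ ℚ⟮g⟯ := by
  set L := ℚ⟮g ^ p⟯ with hL
  set a : L := AdjoinSimple.gen ℚ (g ^ p) with ha
  have haL : algebraMap L K a = g ^ p := AdjoinSimple.algebraMap_gen ℚ (g ^ p)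
  obtain ⟨γ, hγ⟩ : ∃ γ : L, γ ^ p = a := by
    by_contra hcon
    push Not at hcon
    have hirr := X_pow_sub_C_irreducible_of_prime hp hcon
    have h3 := natDegree_eq_of_irr L g hp.pos a haL.symm hirr
    have h4 := rr_pow g p
    rw [← hL, h3] at h4
    exact h1 (by rw [← h4, mul_comm])
  have hγK : (γ : K) ^ p = g ^ p := by
    rw [← haL, ← hγ]; rfl
  have hγ0 : (γ : K) ≠ 0 := by
    intro h
    rw [h, zero_pow hp.ne_zero] at hγK
    exact hg (pow_eq_zero_iff hp.ne_zero |>.mp hγK.symm)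
  have hgL : g ∉ L := by
    intro h
    have h3 : ℚ⟮g⟯ = L := le_antisymm (by rw [adjoin_simple_le_iff]; exact h) (pow_mem_adj g p)
    apply h2
    change finrank ℚ⟮g ^ p⟯ K = finrank ℚ⟮g⟯ K
    rw [h3]
  set ζ : K := g / γ with hζ
  have hζp : ζ ^ p = 1 := by
    rw [hζ, div_pow, hγK, div_self (pow_ne_zero _ hg)]
  have hζ1 : ζ ≠ 1 := by
    intro h
    apply hgL
    rw [hζ, div_eq_one_iff_eq hγ0] at h
    rw [h]; exact γ.2
  refine ⟨ζ, ?_, ?_⟩
  · have : Fact p.Prime := ⟨hp⟩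
    have h7 := IsPrimitiveRoot.orderOf ζ
    rwa [orderOf_eq_prime hζp hζ1] at h7
  · exact div_mem (mem_adjoin_simple_self ℚ g) (pow_mem_adj g p γ.2)

/-- for every prime there is a good exponent -/
lemma exists_exp2 {α : K} (hα : IsIntegral ℤ α) (h0 : α ≠ 0) (hroot : ∀ n : ℕ, 0 < n → α ^ n ≠ 1)
    (hc : CInj α) {p : ℕ} (hp : p.Prime) :
    ∃ j : ℕ, rr (α ^ (p * p ^ j)) ≤ p ^ j ∧
      ((p ^ j : ℕ) : ℝ) * (finrank ℚ K * Real.log p) ≤ II (α ^ (p * p ^ j)) (α ^ (p ^ j)) := by
  classical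
  -- first step that is not full
  have hex : ∃ j, rr (α ^ (p ^ (j + 1))) ≠ p * rr (α ^ (p ^ j)) := by
    by_contra hcon
    push Not at hcon
    have h1 : ∀ j, rr (α ^ (p ^ j)) = p ^ j * rr α := by
      intro j
      induction j with
      | zero => simp
      | succ j ih => rw [hcon j, ih]; ring
    have h2 : ∀ j, rr (α ^ (p ^ j)) ≤ finrank ℚ K := by
      intro j
      have := rr_mul_natDegree (α ^ (p ^ j))
      rw [← this]
      exact Nat.le_mul_of_pos_right _ (minpoly.natDegree_pos (Algebra.IsIntegral.isIntegral _))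
    have h3 := h2 (finrank ℚ K)
    rw [h1] at h3
    have h4 : finrank ℚ K < p ^ (finrank ℚ K) := Nat.lt_pow_self hp.one_lt
    have h5 := rr_pos α
    nlinarith
  set j0 := Nat.find hex with hj0
  have hj0' := Nat.find_spec hex
  have hmin : ∀ i < j0, rr (α ^ (p ^ (i + 1))) = p * rr (α ^ (p ^ i)) := by
    intro i hi
    by_contra h
    exact Nat.find_min hex hi h
  have hRj : ∀ i ≤ j0, rr (α ^ (p ^ i)) = p ^ i := by
    intro i
    induction i with
    | zero => intro _; simp [rr_one hc]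
    | succ i ih => intro hi; rw [hmin i (by omega), ih (by omega)]; ring
  rw [← hj0] at hj0'
  set g := α ^ (p ^ j0) with hg
  have hRg : rr g = p ^ j0 := hRj j0 le_rfl
  have e1 : α ^ (p ^ (j0 + 1)) = g ^ p := by rw [hg, ← pow_mul, pow_succ]
  have e1' : α ^ (p * p ^ j0) = g ^ p := by rw [hg, ← pow_mul, mul_comm]
  have e2 : α ^ (p * p ^ (j0 + 1)) = g ^ (p * p) := by
    rw [hg, ← pow_mul]; congr 1; ring
  rw [e1] at hj0'
  have hgi : IsIntegral ℤ g := hα.pow _
  have hg0 : g ≠ 0 := pow_ne_zero _ h0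
  have hgroot : ∀ n : ℕ, 0 < n → g ^ n ≠ 1 := by
    intro n hn h
    rw [hg, ← pow_mul] at h
    exact hroot _ (Nat.mul_pos (Nat.pow_pos hp.pos) hn) h
  by_cases hcase : rr (g ^ p) = rr g
  · refine ⟨j0, ?_, ?_⟩
    · rw [e1', hcase, hRg]
    · rw [e1', ← hg, ← hRg]
      exact cross_frob hgi hg0 hgroot hp
  · have hp2 : p ≠ 2 := by
      rintro rfl
      have h1 := rr_pow_le g (p := 2) two_pos
      have h2 := rr_pow g 2
      have h3 := rr_pos g
      set k := (minpoly ℚ⟮g ^ 2⟯ g).natDegree with hk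
      have h4 : k ≤ 2 := by
        rw [← h2, mul_comm 2] at h1
        exact Nat.le_of_mul_le_mul_left h1 h3
      have h5 : k ≠ 2 := by
        intro h
        rw [h] at h2
        exact hj0' (by rw [← h2, mul_comm])
      have h6 : k ≠ 1 := by
        intro h
        rw [h, mul_one] at h2
        exact hcase h2.symm
      have h7 : k ≠ 0 := by
        intro h
        rw [h, mul_zero] at h2
        have := rr_pos (g ^ 2)
        omega
      omega
    refine ⟨j0 + 1, ?_, ?_⟩
    · rw [e2, no_drop hg0 hp hp2 hj0' hcase]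
      have := rr_pow_le g hp.pos
      rw [hRg] at this
      rw [pow_succ, mul_comm]
      exact this
    · obtain ⟨ζ, hζ, hζg⟩ := exists_zeta hg0 hp hj0' hcase
      have h1 := cross_cyc hgi hg0 hgroot hp hζ hζg
      rw [e2, e1]
      refine le_trans (le_of_eq ?_) h1
      rw [hRg]
      push_cast
      ring

end Pool.Agent.W666.DN
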