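import Mathlib
import Pool.Agent.W666.DL.Main
import Pool.Agent.W666.DN.Exp
import Pool.Agent.W666.DN.Ineq3

/-!
# Dobrowolski's theorem with the discriminant defect instead of the degree
-/

set_option autoImplicit false

open Finset Polynomial Module IntermediateField

namespace Pool.Agent.W666.DN

open Pool.Agent.H388SL Pool.Agent.W666.DL Pool.Agent.W666.DM

/-- number field form, exponent `3` -/
theorem all_field3 : ∃ c : ℝ, 0 < c ∧ c ≤ 1 ∧ ∀ (K : Type) [Field K] [NumberField K] (α : K),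
    IsIntegral ℤ α → α ≠ 0 → (∀ n : ℕ, 0 < n → α ^ n ≠ 1) → CInj α → NL α = 0 →
    ∀ δ : ℝ, 0 < δ → δ ≤ 1 →
    finrank ℚ K * Real.log (δ * finrank ℚ K) ≤ NL (aeval α (derivative (minpoly ℤ α))) →
    c * (Real.log (Real.log (16 / δ)) / Real.log (16 / δ)) ^ 3 ≤ lam α := by
  obtain ⟨Y0, hY01, hY0⟩ := exists_Y0
  obtain ⟨C, hCY, hC, hC1⟩ := exists_C Y0
  have hl2 := Real.log_two_lt_d9
  have hl2' := Real.log_two_gt_d9
  have hlC : 0 ≤ Real.log (C + 1) := Real.log_nonneg (by linarith)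
  set kap := 3 + Real.log (C + 1) with hkap
  have hkap3 : 3 ≤ kap := by linarith
  refine ⟨1 / (16 * (C + 1) ^ 2), by positivity, ?_, ?_⟩
  · rw [div_le_one (by positivity)]
    nlinarith
  intro K _ _ α hα h0 hroot hcinj hunit δ hδ0 hδ1 hD
  classical
  set l := Real.log (16 / δ) with hl
  have hl16 : Real.log 16 = 4 * Real.log 2 := by
    have : (16:ℝ) = 2 ^ 4 := by norm_num
    rw [this, Real.log_pow]; norm_num
  have hl' : l = 4 * Real.log 2 - Real.log δ := by
    rw [hl, Real.log_div (by norm_num) hδ0.ne', hl16]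
  have hlδ : Real.log δ ≤ 0 := Real.log_nonpos hδ0.le hδ1
  have hl2a : 2 ≤ l := by linarith
  have hl0 : 0 < l := by linarith
  set m := Real.log l with hm
  have hm1 : 1 / 2 ≤ m := by
    have h1 : Real.log 2 ≤ m := Real.log_le_log (by norm_num) hl2a
    linarith
  have hm0 : 0 < m := by linarith
  have hml : m ≤ l := by
    have := Real.log_le_sub_one_of_pos hl0
    linarith
  have hCl : C * l ≤ C * l ^ 2 / m := by
    rw [le_div_iff₀ hm0]
    have : C * l * m ≤ C * l * l := mul_le_mul_of_nonneg_left hml (by positivity)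
    linarith
  set s : ℕ := ⌈C * l ^ 2 / m⌉₊ with hs
  have hs1 : C * l ^ 2 / m ≤ s := Nat.le_ceil _
  have hs2 : (s:ℝ) ≤ C * l ^ 2 / m + 1 := (Nat.ceil_lt_add_one (by positivity)).le
  have hC2 : C * 2 ≤ C * l := mul_le_mul_of_nonneg_left hl2a (by linarith)
  have hsY : Y0 ≤ s := by
    have : (Y0:ℝ) ≤ s := by linarith
    exact_mod_cast this
  have hs2' : 2 ≤ s := by
    have : (2:ℝ) ≤ s := by linarith
    exact_mod_cast this
  have hs2r : (2:ℝ) ≤ s := by exact_mod_cast hs2'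
  have hs0 : (0:ℝ) < s := by linarith
  set P := PP 0 s with hP
  have hPp : ∀ p ∈ P, p.Prime := fun p hp => (mem_PP.mp hp).2
  have hPs : ∀ p ∈ P, p ≤ s := fun p hp => (mem_PP.mp hp).1.2
  have hlogs : 0 ≤ Real.log s := Real.log_natCast_nonneg s
  have hth0 := theta_half hY0 s hsY (by omega)
  rw [theta_eq] at hth0
  have hth : (s:ℝ) / 4 ≤ ∑ p ∈ P, Real.log p := by linarith
  -- the exponents
  have hex : ∀ p : ℕ, ∃ j : ℕ, p.Prime → (rr (α ^ (p * p ^ j)) ≤ p ^ j ∧
      ((p ^ j : ℕ) : ℝ) * (finrank ℚ K * Real.log p) ≤ II (α ^ (p * p ^ j)) (α ^ (p ^ j))) := by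
    intro p
    by_cases hp : p.Prime
    · obtain ⟨j, hj⟩ := exists_exp2 hα h0 hroot hcinj hp
      exact ⟨j, fun _ => hj⟩
    · exact ⟨0, fun h => absurd h hp⟩
  choose jj hjj using hex
  have hmain := fam_ineq3 hα h0 hroot hcinj hunit P hPp (fun p => p ^ jj p)
    (fun p _ => ⟨jj p, rfl⟩) (fun p hp => (hjj p (hPp p hp)).1) (fun p hp => (hjj p (hPp p hp)).2)
    (A := 64 * kap * l / m) (by positivity) (n := (2 * (s:ℝ)) ^ 2) (by nlinarith) hδ0 hδ1 hD
  have hcard : (P.card : ℝ) ≤ s := by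
    have h1 : (PP 0 s).card ≤ (Finset.Ioc 0 s).card := Finset.card_le_card (Finset.filter_subset _ _)
    rw [Nat.card_Ioc] at h1
    have h2 : ((PP 0 s).card : ℝ) ≤ s := by exact_mod_cast (by omega : (PP 0 s).card ≤ s)
    linarith
  have hT : ∑ p ∈ P, (p:ℝ) ≤ s * P.card := by
    calc ∑ p ∈ P, (p:ℝ) ≤ P.card • (s:ℝ) := by
          apply Finset.sum_le_card_nsmul
          intro p hp
          exact_mod_cast hPs p hp
      _ = s * P.card := by rw [nsmul_eq_mul, mul_comm]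
  have hLe : Real.log ((2 * (s:ℝ)) ^ 2 / δ) = 2 * Real.log 2 + 2 * Real.log s - Real.log δ := by
    rw [Real.log_div (by positivity) hδ0.ne', Real.log_pow, Real.log_mul (by norm_num) hs0.ne']
    push_cast; ring
  have h := real_nd (L := Real.log ((2 * (s:ℝ)) ^ 2 / δ)) hkap3 hkap hC hl2a hm hm1 hs1 hs2 hth
    (Nat.cast_nonneg _) (card_PP_le s hs2') hcard hT (by rw [hLe]; linarith)
    (by rw [hLe, hl']; linarith) (lam_nonneg α) hmain
  refine le_trans (le_of_eq ?_) h
  rw [div_pow]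
  field_simp

end Pool.Agent.W666.DN
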