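import Mathlib
import Pool.Agent.W666.DM.Final2
import Pool.Agent.W666.DN.Main3

/-!
# Dobrowolski's theorem with the discriminant defect instead of the degree, polynomial form
-/

set_option autoImplicit false

open Polynomial Module

namespace Pool.Agent.W666.DN

open Pool.Agent.H388SL Pool.Agent.W666.DL Pool.Agent.W666.DM

lemma ratio_le {x : ℝ} (hx : 1 ≤ x) : 0 ≤ Real.log x / x ∧ Real.log x / x ≤ 1 := by
  have h4 : 0 < x := by linarith
  constructor
  · exact div_nonneg (Real.log_nonneg hx) h4.le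
  · rw [div_le_one h4]
    have := Real.log_le_sub_one_of_pos h4
    linarith

theorem final3 : ∃ c : ℝ, 0 < c ∧ ∀ (f : ℤ[X]) (δ : ℝ), Irreducible f → 1 < MM f →
    0 < δ → δ ≤ 1 → (δ * f.natDegree) ^ f.natDegree ≤ |(f.discr : ℝ)| →
    1 + c * (Real.log (Real.log (16 / δ)) / Real.log (16 / δ)) ^ 3 ≤ MM f := by
  obtain ⟨c, hc, hc', h1⟩ := all_field3
  refine ⟨c, hc, ?_⟩
  intro f δ hf hM hδ0 hδ1 hD
  exact poly_of_field (c := c)
    (F := fun δ => (Real.log (Real.log (16 / δ)) / Real.log (16 / δ)) ^ 3) (by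
    intro δ h0 h1
    obtain ⟨h3, h4⟩ := ratio_le (log16_ge_one h0 h1)
    have h5 := pow_le_one₀ h3 h4 (n := 3)
    have h6 := pow_nonneg h3 3
    show c * (Real.log (Real.log (16 / δ)) / Real.log (16 / δ)) ^ 3 ≤ 1
    nlinarith) h1 f δ hf hM hδ0 hδ1 hD

end Pool.Agent.W666.DN
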